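import Pool.Agent.Y36.SG.ConjG
import Pool.Agent.Results.MP_6985d1_al.ExactGrowth
import Pool.Agent.Results.MP_bbfbdc_al.AllGeneratingSets

set_option autoImplicit false

/-!
# Growth and conjugacy growth of the first Grigorchuk group

The first Grigorchuk group `G` acts on the binary words (tree); `ball n` is the number of its elements
of length at most `n` with respect to `a, b, c, d` (definitions in
`Pool/Agent/Results/MP_03d093_al/SphereBall.lean`); `lam ≈ 2.4675` is the positive root of
`x³ = x² + 2x + 4` and `alpha = log 2 / log lam ≈ 0.7674` (`Pool/Agent/H776R2/Grig/Defs.lean`).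

For a set `S` of generators of a group: `wball S n` and `wsph S n` are the numbers of elements of word
length at most `n` and exactly `n`, and `wcc S n` is the number of conjugacy classes meeting the ball
of radius `n` (`Pool/Agent/Y36/SG/Basic.lean`, `Pool/Agent/Y36/SG/ConjG.lean`).  If the group acts on
the binary tree by automorphisms (`φ`), then `wtc S φ n` is the number of conjugacy classes in the
group of all automorphisms of the tree which meet the image of the ball of radius `n`
(`Pool/Agent/Y36/SG/ConjG.lean`).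
-/

namespace Pool.Agent.Results.MP_6985d1_al.ConjugacyGrowth

open Pool.Agent.Y36.SG Pool.Agent.Results.MP_03d093_al Pool.Agent.H776R2.Grig

/-- `exp(n^alpha)` -/
noncomputable def ex (n : ℕ) : ℝ := Real.exp ((n : ℝ) ^ alpha)

theorem ex_mono {m n : ℕ} (h : m ≤ n) : ex m ≤ ex n := by
  unfold ex
  have h1 : (m : ℝ) ≤ n := by exact_mod_cast h
  exact Real.exp_le_exp.2 (Real.rpow_le_rpow (by positivity) h1 H_alpha_pos.le)

theorem acting (Γ : Type) [Group Γ] (φ : Γ →* Equiv.Perm (List Bool)) (hTA : ∀ g, TA (φ g))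
    (hφ : SphereBall.G ≤ φ.range) (S : Set Γ) (hf : S.Finite) (hS : Subgroup.closure S = ⊤) :
    ∃ C : ℕ, 1 ≤ C ∧ ∀ n N : ℕ, C * n ≤ N →
      ex n ≤ wtc S φ N ∧ wtc S φ N ≤ wcc S N ∧ ex n ≤ wsph S N := by
  have hinf : Infinite Γ := by
    have : Infinite SphereBall.G := by
      by_contra hfin
      rw [not_infinite_iff_finite] at hfin
      obtain ⟨n, hn⟩ := SphereBall.ball_unbounded (Nat.card SphereBall.G + 1)
      have h1 : SphereBall.ball n ≤ Nat.card SphereBall.G :=
        Nat.card_le_card_of_injective (fun g : {g : SphereBall.G // SphereBall.len g ≤ n} => g.1)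
          Subtype.val_injective
      omega
    by_contra hfin
    rw [not_infinite_iff_finite] at hfin
    have h1 : Finite φ.range := Finite.of_surjective _ φ.rangeRestrict_surjective
    have h2 : Finite SphereBall.G :=
      Finite.of_injective (Subgroup.inclusion hφ) (Subgroup.inclusion_injective hφ)
    exact not_finite SphereBall.G
  obtain ⟨C1, hC1, h1⟩ := final_lower_gen (wtc S φ) (fun m n h => wtc_mono hf hS φ h)
    (wtc_pos hf hS φ 0) (wtc_lower hf hS φ hφ)
  obtain ⟨C2, hC2, h2⟩ := sphere_lower hf hS alpha H_alpha_pos ⟨C1, hC1, fun n => by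
    refine (h1 n).trans ?_
    exact_mod_cast (wtc_le_wcc hf hS φ hTA _).trans (wcc_le_wball hf hS _)⟩
  refine ⟨C1 + C2, by omega, fun n N hN => ⟨?_, wtc_le_wcc hf hS φ hTA N, h2 n N ?_⟩⟩
  · refine (h1 n).trans ?_
    have h3 : C1 * n ≤ N := le_trans (Nat.mul_le_mul_right _ (Nat.le_add_right _ _)) hN
    exact_mod_cast wtc_mono hf hS φ h3
  · exact le_trans (Nat.mul_le_mul_right _ (Nat.le_add_left _ _)) hN

/-- **Theorem.**  (1) Let `Γ` be a group acting on the binary tree by automorphisms (`φ`), such that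
the image contains the first Grigorchuk group `G`, and let `S` be a finite generating set of `Γ`.
There is a constant `C` such that for all `n` and all `N ≥ C n`: at least `exp(n^alpha)` conjugacy
classes of the group of all automorphisms of the tree meet the image of the ball of radius `N`, the
ball of radius `N` meets at least as many conjugacy classes of `Γ`, and the sphere of radius `N` has
at least `exp(n^alpha)` elements.
(2) Let `S` be a finite generating set of `G`.  There is a constant `C` such that the numbers of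
elements, of conjugacy classes of `G`, and of conjugacy classes of the group of all automorphisms of
the tree meeting the ball of radius `N`, and the number of elements of length exactly `N`, are all at
least `exp(n^alpha)` for all `N ≥ C n`, and all at most `exp((C N)^alpha)`.
(3) The growth function of `G` with respect to `a, b, c, d` and the function `⌊exp(n^alpha)⌋` dominate
each other. -/
theorem result :
    (∀ (Γ : Type) [Group Γ] (φ : Γ →* Equiv.Perm (List Bool)), (∀ g, TA (φ g)) →
      SphereBall.G ≤ φ.range → ∀ S : Set Γ, S.Finite → Subgroup.closure S = ⊤ →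
      ∃ C : ℕ, 1 ≤ C ∧ ∀ n N : ℕ, C * n ≤ N →
        ex n ≤ wtc S φ N ∧ wtc S φ N ≤ wcc S N ∧ ex n ≤ wsph S N) ∧
    (∀ S : Set SphereBall.G, S.Finite → Subgroup.closure S = ⊤ →
      ∃ C : ℕ, 1 ≤ C ∧
        (∀ n N : ℕ, C * n ≤ N → ex n ≤ wtc S SphereBall.G.subtype N ∧ ex n ≤ wsph S N) ∧
        (∀ N : ℕ, wtc S SphereBall.G.subtype N ≤ wcc S N ∧ wcc S N ≤ wball S N ∧
          wsph S N ≤ wball S N ∧ wball S N ≤ ex (C * N))) ∧
    ((0 < lam ∧ lam ^ 3 = lam ^ 2 + 2 * lam + 4) ∧ (3 / 4 < alpha ∧ alpha < 10 / 13) ∧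
      (∃ C : ℕ, 1 ≤ C ∧ ∀ n : ℕ,
        ⌊Real.exp ((n : ℝ) ^ alpha)⌋₊ ≤ SphereBall.ball (C * n)) ∧
      (∃ C : ℕ, 1 ≤ C ∧ ∀ n : ℕ,
        SphereBall.ball n ≤ ⌊Real.exp (((C * n : ℕ) : ℝ) ^ alpha)⌋₊)) := by
  refine ⟨fun Γ _ φ hTA hφ S hf hS => acting Γ φ hTA hφ S hf hS, fun S hf hS => ?_,
    ExactGrowth.result⟩
  have hTA : ∀ g : SphereBall.G, TA (SphereBall.G.subtype g) := fun g => TA_of_mem g.2
  obtain ⟨C1, hC1, h1⟩ := acting SphereBall.G SphereBall.G.subtype hTA
    (by rw [Subgroup.range_subtype]) S hf hS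
  obtain ⟨C2, hC2, h2⟩ := MP_bbfbdc_al.AllGeneratingSets.grig_upper
  obtain ⟨K, hK, h3⟩ := exists_wball hf hS gens_finite gens_closure
  refine ⟨C1 + C2 * K, by omega, fun n N hN => ?_, fun N => ?_⟩
  · have h4 := h1 n N (le_trans (Nat.mul_le_mul_right _ (Nat.le_add_right _ _)) hN)
    exact ⟨h4.1, h4.2.2⟩
  · refine ⟨wtc_le_wcc hf hS _ hTA N, wcc_le_wball hf hS N, wsph_le_wball hf hS N, ?_⟩
    have h4 : (wball S N : ℝ) ≤ (wball gens (K * N) : ℝ) := by exact_mod_cast h3 N
    refine h4.trans ((h2 (K * N)).trans ?_)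
    refine ex_mono ?_
    rw [← mul_assoc]
    exact Nat.mul_le_mul_right _ (Nat.le_add_left _ _)

end Pool.Agent.Results.MP_6985d1_al.ConjugacyGrowth
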